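import Mathlib
import Pool.Agent.MP_0641e2_an.Ch.Fw
import Pool.Agent.MP_0641e2_an.Ch.Bw

/-! All orthogonal speeds, up to bounded functions. -/

open Pool.Agent.MP_0641e2_an Pool.Agent.MP_0641e2_an.Ch

namespace Pool.Agent.Results.MP_0641e2_an.AllSpeeds

theorem result (u : ℝ → ℝ) : List.TFAE [
    ∃ (φ : ℝ → ℂ → ℂ) (τ : ℂ), IsSemigroup φ ∧ IsDW φ τ ∧
      ∃ C : ℝ, ∀ t : ℝ, 0 ≤ t → |Real.log ‖cay τ (φ t 0)‖ / 2 - u t| ≤ C,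
    ∃ φ : ℝ → ℂ → ℂ, IsSemigroup φ ∧ IsDW φ 1 ∧ (∀ t : ℝ, 0 ≤ t → (φ t 0).im = 0) ∧
      ∃ C : ℝ, ∀ t : ℝ, 0 ≤ t → |Real.log ‖cay 1 (φ t 0)‖ / 2 - u t| ≤ C,
    ∃ c : ℝ → ℝ, Adm c ∧ ∃ C : ℝ, ∀ t : ℝ, 0 ≤ t → |c t - u t| ≤ C] := by
  have hO := sHor sHar
  have ha := sTa sDer
  have hb := sTb sMon
  have hon := sOnto hb
  obtain ⟨C, hC⟩ := sFwd (sUp hO ha hb) (sLow sMon ha (sA hO sIm) (sB sHar sMon sIm)) hon
    (sInv hon (sCv sMon))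
  have hB := sBwd sSeq (sGen hb (sMaj sMaj0) sEst sHer) sCmp sReal hon sInj sInvH
    (sStar sInvH (sApr sDer)) sSemi sDW
  tfae_have 1 → 3 := by
    rintro ⟨φ, τ, h1, h2, K, hK⟩
    obtain ⟨c, hc, h⟩ := hC φ τ h1 h2
    refine ⟨c, hc, C + K, fun t ht => ?_⟩
    have a := abs_le.1 (h t ht)
    have b := abs_le.1 (hK t ht)
    rw [abs_le]
    constructor <;> linarith [a.1, a.2, b.1, b.2]
  tfae_have 3 → 2 := by
    rintro ⟨c, hc, K, hK⟩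
    obtain ⟨φ, h1, h2, h⟩ := hB c hc
    refine ⟨φ, h1, h2, fun t ht => (h t ht).1, 2 + K, fun t ht => ?_⟩
    have a := abs_le.1 (h t ht).2
    have b := abs_le.1 (hK t ht)
    rw [abs_le]
    constructor <;> linarith [a.1, a.2, b.1, b.2]
  tfae_have 2 → 1 := by
    rintro ⟨φ, h1, h2, -, h⟩
    exact ⟨φ, 1, h1, h2, h⟩
  tfae_finish

end Pool.Agent.Results.MP_0641e2_an.AllSpeeds
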