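import Mathlib
import Pool.Agent.Mg.F0641e2.Gee51b6

/-! The difference of the orthogonal speeds of two semigroups with nested Koenigs domains. -/

open Set Metric Filter Topology Pool.Agent.MP_0641e2_an

namespace Pool.Agent.Results.MP_0641e2_an.DomainLimit

theorem result (φ ψ : ℝ → ℂ → ℂ) (τ σ : ℂ) (h g : ℂ → ℂ) (hφ : IsSemigroup φ) (hψ : IsSemigroup ψ)
    (hτ : IsDW φ τ) (hσ : IsDW ψ σ) (hh : IsKoenigs φ h) (hg : IsKoenigs ψ g) (h0 : h 0 = g 0)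
    (hs : h '' ball 0 1 ⊆ g '' ball 0 1) :
    ∃ α : ℝ, 0 ≤ α ∧ α ≤ 1 ∧
      Tendsto (fun t => ‖cay σ (ψ t 0)‖ / ‖cay τ (φ t 0)‖) atTop (𝓝 α) ∧
      (α = 1 ↔ h '' ball 0 1 = g '' ball 0 1) := by
  obtain ⟨α, a0, a1, a2, a3⟩ := dom hφ hψ hτ hσ hh hg h0 hs
  refine ⟨α, a0, a1, a2, fun e => hs.antisymm (a3 e), fun e => ?_⟩
  obtain ⟨β, b0, b1, b2, -⟩ := dom hψ hφ hσ hτ hg hh h0.symm e.ge
  have b : (0 : ℂ) ∈ ball (0 : ℂ) 1 := mem_ball_self one_pos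
  have c : α * β = 1 := tendsto_nhds_unique (a2.mul b2) (tendsto_const_nhds.congr' (by
    filter_upwards [(norm_tendsto hφ hτ b).eventually_gt_atTop 0,
      (norm_tendsto hψ hσ b).eventually_gt_atTop 0] with t k1 k2
    field_simp))
  nlinarith

end Pool.Agent.Results.MP_0641e2_an.DomainLimit
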