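import Mathlib
import Pool.Agent.Mg.F0641e2.Gbf8884

/-! A quantitative form of the monotonicity of the orthogonal speed. -/

open Set Metric Pool.Agent.MP_0641e2_an

namespace Pool.Agent.Results.MP_0641e2_an.SharpMonotone

theorem result (φ : ℝ → ℂ → ℂ) (τ : ℂ) (hφ : IsSemigroup φ) (hτ : IsDW φ τ)
    (z : ℂ) (hz : z ∈ ball (0 : ℂ) 1) (a : ℂ) (ha : a.im = (cay τ z).im) (ha0 : 0 ≤ a.re)
    (ha1 : a.re ≤ (cay τ z).re) (ε : ℝ) (hε : ε = 1 ∨ ε = -1) (s t : ℝ) (hs : 0 ≤ s) (hst : s ≤ t) :
    ((cay τ (φ s z)).re - (cay τ z).re) * (Real.pi / 2 - ε * Complex.arg (cay τ (φ t z) - a)) ≤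
      ((cay τ (φ t z)).re - (cay τ z).re) *
        (Real.pi / 2 - ε * Complex.arg (cay τ (φ s z) - a)) := by
  obtain ⟨P, hP, ho⟩ := exists_flow hφ hτ
  have h := ho z hz
  have e := hφ.zero z hz
  rcases hε with rfl | rfl
  · simpa only [e, one_mul] using sharp hP h (a := a) (by simpa only [e] using ha) ha0
      (by simpa only [e] using ha1) hs hst
  · have k := sharp hP.mirror h.mirror (a := (starRingEnd ℂ) a) (by simpa [e] using ha)
      (by simpa using ha0) (by simpa [e] using ha1) hs hst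
    have ar : ∀ r, 0 ≤ r → Complex.arg ((starRingEnd ℂ) (cay τ (φ r z)) - (starRingEnd ℂ) a) =
        -1 * Complex.arg (cay τ (φ r z) - a) := fun r hr => by
      have h1 := h.re_le hP le_rfl hr
      simp only [e] at h1
      rw [← map_sub, Complex.arg_conj, if_neg, neg_one_mul]
      rw [Complex.arg_eq_pi_iff, Complex.sub_re]
      intro c
      linarith [c.1]
    rw [ar s hs, ar t (hs.trans hst)] at k
    simpa only [e, Complex.conj_re] using k

end Pool.Agent.Results.MP_0641e2_an.SharpMonotone
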